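import Mathlib

/-!
# Stationary `k`-dependent hard-core processes on `ℤ`
-/

set_option autoImplicit false

open MeasureTheory ProbabilityTheory

namespace Pool.Agent.H331K

/-- `μ` is the law of a stationary `k`-dependent hard-core process on `ℤ` (a random element of
`{0,1}^ℤ`, with `true = 1`): it is a probability measure, almost surely no two neighbours are both
`1`, it is invariant under the shift, and for all `A, B ⊆ ℤ` with `|a - b| > k` for all `a ∈ A`,
`b ∈ B` the families `(X_a)_{a ∈ A}` and `(X_b)_{b ∈ B}` are independent. -/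
structure IsHC (k : ℕ) (μ : Measure (ℤ → Bool)) : Prop where
  prob : IsProbabilityMeasure μ
  hard : ∀ᵐ x ∂μ, ∀ i : ℤ, ¬ (x i = true ∧ x (i + 1) = true)
  stat : μ.map (fun (x : ℤ → Bool) (i : ℤ) => x (i + 1)) = μ
  dep : ∀ A B : Set ℤ, (∀ a ∈ A, ∀ b ∈ B, (k : ℤ) < |a - b|) →
    IndepFun (fun (x : ℤ → Bool) (a : A) => x a) (fun (x : ℤ → Bool) (b : B) => x b) μ

/-- The maximal density `p_k` of stationary `k`-dependent hard-core processes on `ℤ`. -/
noncomputable def maxDensity (k : ℕ) : ℝ :=
  sSup {r : ℝ | ∃ μ : Measure (ℤ → Bool), IsHC k μ ∧ r = μ.real {x | x 0 = true}}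

/-- The indicator of `X_i = 1`. -/
noncomputable def bit (i : ℤ) (x : ℤ → Bool) : ℝ := if x i = true then 1 else 0

theorem measurable_bit (i : ℤ) : Measurable (bit i) := by
  have : bit i = (fun b : Bool => if b = true then (1 : ℝ) else 0) ∘ (fun x : ℤ → Bool => x i) := rfl
  rw [this]
  exact Measurable.of_discrete.comp (measurable_pi_apply i)

theorem bit_cases (i : ℤ) (x : ℤ → Bool) : bit i x = 0 ∨ bit i x = 1 := by
  unfold bit
  split_ifs <;> simp

theorem bit_nonneg (i : ℤ) (x : ℤ → Bool) : 0 ≤ bit i x := by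
  rcases bit_cases i x with h | h <;> simp [h]

theorem bit_le_one (i : ℤ) (x : ℤ → Bool) : bit i x ≤ 1 := by
  rcases bit_cases i x with h | h <;> simp [h]

theorem bit_sq (i : ℤ) (x : ℤ → Bool) : bit i x * bit i x = bit i x := by
  rcases bit_cases i x with h | h <;> simp [h]

/-- The shift. -/
def sh (x : ℤ → Bool) : ℤ → Bool := fun i => x (i + 1)

theorem measurable_sh : Measurable sh := by unfold sh; fun_prop

theorem sh_iterate (n : ℕ) (x : ℤ → Bool) (i : ℤ) : (sh^[n] x) i = x (i + n) := by
  induction n generalizing x with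
  | zero => simp
  | succ n ih =>
    rw [Function.iterate_succ_apply, ih]
    unfold sh
    congr 1
    push_cast
    ring

namespace IsHC

variable {k : ℕ} {μ : Measure (ℤ → Bool)}

theorem pres (h : IsHC k μ) : MeasurePreserving sh μ μ := ⟨measurable_sh, h.stat⟩

theorem pres_n (h : IsHC k μ) (n : ℕ) : MeasurePreserving (sh^[n]) μ μ := h.pres.iterate n

/-- Shift invariance of expectations. -/
theorem integral_shift (h : IsHC k μ) (n : ℕ) {f : (ℤ → Bool) → ℝ} (hf : Measurable f) :
    ∫ x, f (fun i => x (i + n)) ∂μ = ∫ x, f x ∂μ := by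
  have e : (fun x => f (fun i => x (i + n))) = fun x => f (sh^[n] x) := by
    funext x
    congr 1
    funext i
    exact (sh_iterate n x i).symm
  rw [e]
  have h2 := h.pres_n n
  conv_rhs => rw [← h2.map_eq]
  rw [integral_map h2.measurable.aemeasurable hf.aestronglyMeasurable]

/-- Products over separated index sets factorise. -/
theorem integral_mul (h : IsHC k μ) {A B : Set ℤ} (hAB : ∀ a ∈ A, ∀ b ∈ B, (k : ℤ) < |a - b|)
    {F : (A → Bool) → ℝ} {G : (B → Bool) → ℝ} (hF : Measurable F) (hG : Measurable G) :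
    ∫ x : ℤ → Bool, F (fun a => x a) * G (fun b => x b) ∂μ =
      (∫ x : ℤ → Bool, F (fun a => x a) ∂μ) * ∫ x : ℤ → Bool, G (fun b => x b) ∂μ := by
  have h1 := (h.dep A B hAB).comp hF hG
  exact h1.integral_fun_mul_eq_mul_integral
    (hF.comp (by fun_prop)).aestronglyMeasurable (hG.comp (by fun_prop)).aestronglyMeasurable

/-- The density. -/
theorem density_eq (h : IsHC k μ) : μ.real {x | x 0 = true} = ∫ x, bit 0 x ∂μ := by
  have := h.prob
  have hm : MeasurableSet {x : ℤ → Bool | x 0 = true} :=
    measurableSet_eq_fun (measurable_pi_apply 0) measurable_const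
  rw [← integral_indicator_one hm]
  apply integral_congr_ae
  filter_upwards with x
  unfold bit
  simp [Set.indicator]

theorem integral_bit (h : IsHC k μ) (n : ℕ) : ∫ x, bit n x ∂μ = ∫ x, bit 0 x ∂μ := by
  rw [← h.integral_shift n (measurable_bit 0)]
  congr 1
  funext x
  unfold bit
  simp

theorem integral_bit_mul (h : IsHC k μ) (m n : ℤ) (hmn : (k : ℤ) < |m - n|) :
    ∫ x, bit m x * bit n x ∂μ = (∫ x, bit m x ∂μ) * ∫ x, bit n x ∂μ := by
  have := h.integral_mul (A := {m}) (B := {n}) (by simpa using hmn)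
    (F := fun z => if z ⟨m, rfl⟩ = true then 1 else 0)
    (G := fun z => if z ⟨n, rfl⟩ = true then 1 else 0) ?_ ?_
  · exact this
  · exact (Measurable.of_discrete (f := fun b : Bool => if b = true then (1 : ℝ) else 0)).comp
      (measurable_pi_apply _)
  · exact (Measurable.of_discrete (f := fun b : Bool => if b = true then (1 : ℝ) else 0)).comp
      (measurable_pi_apply _)

end IsHC

theorem integrable_bits {μ : Measure (ℤ → Bool)} [IsProbabilityMeasure μ] {f : (ℤ → Bool) → ℝ}
    (hf : Measurable f) (C : ℝ) (hC : ∀ x, |f x| ≤ C) : Integrable f μ :=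
  Integrable.of_bound hf.aestronglyMeasurable C (by filter_upwards with x; exact hC x)

end Pool.Agent.H331K
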