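import Mathlib
import Pool.Agent.H331K.Defs

/-!
# Upper bounds for the density of `k`-dependent hard-core processes
-/

set_option autoImplicit false

open MeasureTheory ProbabilityTheory

namespace Pool.Agent.H331K

/-- `f` is integrable with expectation `v`. -/
def HasE (μ : Measure (ℤ → Bool)) (f : (ℤ → Bool) → ℝ) (v : ℝ) : Prop :=
  Integrable f μ ∧ ∫ x, f x ∂μ = v

variable {μ : Measure (ℤ → Bool)}

theorem HasE.add {f g : (ℤ → Bool) → ℝ} {a b : ℝ} (hf : HasE μ f a) (hg : HasE μ g b) :
    HasE μ (fun x => f x + g x) (a + b) :=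
  ⟨hf.1.add hg.1, by rw [integral_add hf.1 hg.1, hf.2, hg.2]⟩

theorem HasE.sub {f g : (ℤ → Bool) → ℝ} {a b : ℝ} (hf : HasE μ f a) (hg : HasE μ g b) :
    HasE μ (fun x => f x - g x) (a - b) :=
  ⟨hf.1.sub hg.1, by rw [integral_sub hf.1 hg.1, hf.2, hg.2]⟩

theorem HasE.one [IsProbabilityMeasure μ] : HasE μ (fun _ => 1) 1 :=
  ⟨integrable_const _, by simp⟩

theorem HasE.nonneg {f : (ℤ → Bool) → ℝ} {a : ℝ} (hf : HasE μ f a) (h : ∀ᵐ x ∂μ, 0 ≤ f x) :
    0 ≤ a := by
  rw [← hf.2]; exact integral_nonneg_of_ae h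

theorem hasE_bit [IsProbabilityMeasure μ] (i : ℤ) : HasE μ (bit i) (∫ x, bit i x ∂μ) :=
  ⟨integrable_bits (measurable_bit i) 1 (fun x => by
    rw [abs_of_nonneg (bit_nonneg i x)]; exact bit_le_one i x), rfl⟩

theorem hasE_bit2 [IsProbabilityMeasure μ] (i j : ℤ) :
    HasE μ (fun x => bit i x * bit j x) (∫ x, bit i x * bit j x ∂μ) :=
  ⟨integrable_bits ((measurable_bit i).mul (measurable_bit j)) 1 (fun x => by
    rcases bit_cases i x with h | h <;> rcases bit_cases j x with h' | h' <;> simp [h, h']), rfl⟩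

theorem hasE_bit3 [IsProbabilityMeasure μ] (i j l : ℤ) :
    HasE μ (fun x => bit i x * bit j x * bit l x) (∫ x, bit i x * bit j x * bit l x ∂μ) :=
  ⟨integrable_bits (((measurable_bit i).mul (measurable_bit j)).mul (measurable_bit l)) 1
    (fun x => by
      rcases bit_cases i x with h | h <;> rcases bit_cases j x with h' | h' <;>
        rcases bit_cases l x with h'' | h'' <;> simp [h, h', h'']), rfl⟩

theorem bit_mul_succ {x : ℤ → Bool} (h : ∀ i : ℤ, ¬ (x i = true ∧ x (i + 1) = true)) (i : ℤ) :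
    bit i x * bit (i + 1) x = 0 := by
  have := h i
  unfold bit
  split_ifs with h1 h2 <;> simp_all

theorem shift_bit2 {k : ℕ} (h : IsHC k μ) (n : ℕ) (m : ℤ) :
    ∫ x, bit n x * bit (n + m) x ∂μ = ∫ x, bit 0 x * bit m x ∂μ := by
  rw [← h.integral_shift n (f := fun x => bit 0 x * bit m x)
    ((measurable_bit 0).mul (measurable_bit m))]
  congr 1
  funext x
  unfold bit
  simp [add_comm]

theorem density_le_half {k : ℕ} (h : IsHC k μ) : ∫ x, bit 0 x ∂μ ≤ 1 / 2 := by
  have := h.prob
  have e := ((HasE.one (μ := μ)).sub (hasE_bit 0)).sub (hasE_bit 1)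
  have e1 := h.integral_bit 1
  have e2 := e.nonneg (by
    filter_upwards [h.hard] with x hx
    have h0 := bit_mul_succ hx 0
    rw [zero_add] at h0
    rcases bit_cases 0 x with h1 | h1 <;> rcases bit_cases 1 x with h2 | h2 <;>
      rw [h1, h2] at h0 <;> rw [h1, h2] <;> norm_num at *)
  norm_num at e1
  rw [e1] at e2
  linarith

/-- **The case `k = 2`.** -/
theorem upper_two (h : IsHC 2 μ) : 0 ≤ 1 - 3 * (∫ x, bit 0 x ∂μ) + (∫ x, bit 0 x ∂μ) ^ 2 := by
  have := h.prob
  set P := ∫ x, bit 0 x ∂μ with hP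
  set C := ∫ x, bit 0 x * bit 2 x ∂μ with hC
  have hP0 : 0 ≤ P := integral_nonneg (fun x => bit_nonneg 0 x)
  have b : ∀ n : ℕ, ∫ x, bit n x ∂μ = P := fun n => h.integral_bit n
  have b1 : ∫ x, bit 1 x ∂μ = P := by simpa using b 1
  have b2 : ∫ x, bit 2 x ∂μ = P := by simpa using b 2
  have b3 : ∫ x, bit 3 x ∂μ = P := by simpa using b 3
  have b4 : ∫ x, bit 4 x ∂μ = P := by simpa using b 4
  have b5 : ∫ x, bit 5 x ∂μ = P := by simpa using b 5
  have c13 : ∫ x, bit 1 x * bit 3 x ∂μ = C := by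
    have := shift_bit2 h 1 2
    norm_num at this; exact this
  have c24 : ∫ x, bit 2 x * bit 4 x ∂μ = C := by
    have := shift_bit2 h 2 2
    norm_num at this; exact this
  have c35 : ∫ x, bit 3 x * bit 5 x ∂μ = C := by
    have := shift_bit2 h 3 2
    norm_num at this; exact this
  have c14 : ∫ x, bit 1 x * bit 4 x ∂μ = P * P := by
    rw [h.integral_bit_mul 1 4 (by norm_num), b1, b4]
  have c05 : ∫ x, bit 0 x * bit 5 x ∂μ = P * P := by
    rw [h.integral_bit_mul 0 5 (by norm_num), b5]
  have c025 : ∫ x, bit 0 x * bit 2 x * bit 5 x ∂μ = C * P := by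
    have := h.integral_mul (A := {0, 2}) (B := {5}) (by
        intro a ha b hb
        simp only [Set.mem_insert_iff, Set.mem_singleton_iff] at ha hb
        rcases ha with rfl | rfl <;> subst hb <;> norm_num)
      (F := fun z => (if z ⟨0, by simp⟩ = true then 1 else 0) *
        (if z ⟨2, by simp⟩ = true then 1 else 0))
      (G := fun z => if z ⟨5, rfl⟩ = true then 1 else 0) ?_ ?_
    · rw [← b5]; exact this
    · apply Measurable.mul
      · exact (Measurable.of_discrete (f := fun b : Bool => if b = true then (1 : ℝ) else 0)).comp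
          (measurable_pi_apply _)
      · exact (Measurable.of_discrete (f := fun b : Bool => if b = true then (1 : ℝ) else 0)).comp
          (measurable_pi_apply _)
    · exact (Measurable.of_discrete (f := fun b : Bool => if b = true then (1 : ℝ) else 0)).comp
        (measurable_pi_apply _)
  have c035 : ∫ x, bit 0 x * bit 3 x * bit 5 x ∂μ = P * C := by
    have := h.integral_mul (A := {0}) (B := {3, 5}) (by
        intro a ha b hb
        simp only [Set.mem_insert_iff, Set.mem_singleton_iff] at ha hb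
        rcases hb with rfl | rfl <;> subst ha <;> norm_num)
      (F := fun z => if z ⟨0, rfl⟩ = true then 1 else 0)
      (G := fun z => (if z ⟨3, by simp⟩ = true then 1 else 0) *
        (if z ⟨5, by simp⟩ = true then 1 else 0)) ?_ ?_
    · rw [← c35]
      simp only [mul_assoc]
      exact this
    · exact (Measurable.of_discrete (f := fun b : Bool => if b = true then (1 : ℝ) else 0)).comp
        (measurable_pi_apply _)
    · apply Measurable.mul
      · exact (Measurable.of_discrete (f := fun b : Bool => if b = true then (1 : ℝ) else 0)).comp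
          (measurable_pi_apply _)
      · exact (Measurable.of_discrete (f := fun b : Bool => if b = true then (1 : ℝ) else 0)).comp
          (measurable_pi_apply _)
  -- the two inequalities
  have key : ∀ᵐ x ∂μ, 0 ≤ bit 0 x * bit 5 x - bit 0 x * bit 2 x * bit 5 x -
      bit 0 x * bit 3 x * bit 5 x ∧
      0 ≤ 1 - bit 1 x - bit 2 x - bit 3 x - bit 4 x + bit 1 x * bit 3 x + bit 2 x * bit 4 x +
        bit 1 x * bit 4 x - bit 0 x * bit 5 x + bit 0 x * bit 2 x * bit 5 x +
        bit 0 x * bit 3 x * bit 5 x := by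
    filter_upwards [h.hard] with x hx
    have h0 := bit_mul_succ hx 0
    have h1 := bit_mul_succ hx 1
    have h2 := bit_mul_succ hx 2
    have h3 := bit_mul_succ hx 3
    have h4 := bit_mul_succ hx 4
    norm_num at h0 h1 h2 h3 h4
    rcases bit_cases 0 x with e0 | e0 <;> rcases bit_cases 1 x with e1 | e1 <;>
    rcases bit_cases 2 x with e2 | e2 <;> rcases bit_cases 3 x with e3 | e3 <;>
    rcases bit_cases 4 x with e4 | e4 <;> rcases bit_cases 5 x with e5 | e5 <;>
      rw [e0, e1] at h0 <;> rw [e1, e2] at h1 <;> rw [e2, e3] at h2 <;> rw [e3, e4] at h3 <;>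
      rw [e4, e5] at h4 <;> rw [e0, e1, e2, e3, e4, e5] <;>
      first
      | (norm_num; done)
      | (norm_num at h0; done)
      | (norm_num at h1; done)
      | (norm_num at h2; done)
      | (norm_num at h3; done)
      | (norm_num at h4; done)
  have i1 := (((hasE_bit2 (μ := μ) 0 5).sub (hasE_bit3 0 2 5)).sub (hasE_bit3 0 3 5)).nonneg (by
    filter_upwards [key] with x hx using hx.1)
  have i2 := ((((((((((HasE.one (μ := μ)).sub (hasE_bit 1)).sub (hasE_bit 2)).sub
    (hasE_bit 3)).sub (hasE_bit 4)).add (hasE_bit2 1 3)).add (hasE_bit2 2 4)).add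
    (hasE_bit2 1 4)).sub (hasE_bit2 0 5)).add (hasE_bit3 0 2 5)).add (hasE_bit3 0 3 5)
  have i2' := i2.nonneg (by filter_upwards [key] with x hx using hx.2)
  rw [c05, c025, c035] at i1
  rw [b1, b2, b3, b4, c13, c24, c14, c05, c025, c035] at i2'
  -- algebra
  rcases hP0.eq_or_lt with h0 | h0
  · rw [← h0]; norm_num
  · have hc : C ≤ P / 2 := by nlinarith
    nlinarith

/-- The alternating continuation of `b`. -/
noncomputable def alt (b : ℝ) : ℕ → ℝ
  | 0 => b
  | n + 1 => 1 - alt b n

theorem alt_odd (b : ℝ) (n : ℕ) : alt b (2 * n) = b ∧ alt b (2 * n + 1) = 1 - b := by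
  induction n with
  | zero => simp [alt]
  | succ n ih =>
    have e : alt b (2 * (n + 1)) = 1 - alt b (2 * n + 1) := rfl
    refine ⟨by rw [e, ih.2]; ring, ?_⟩
    show 1 - alt b (2 * (n + 1)) = 1 - b
    rw [e, ih.2]; ring

theorem alt_dist {x : ℤ → Bool} (h : ∀ i : ℤ, ¬ (x i = true ∧ x (i + 1) = true)) (m : ℕ) :
    |bit m x - alt (bit 0 x) m| ≤ ∑ i ∈ Finset.range m, (1 - bit i x - bit (i + 1) x) := by
  induction m with
  | zero => simp [alt]
  | succ m ih =>
    rw [Finset.sum_range_succ]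
    have h1 := bit_mul_succ h m
    have h2 : |bit ((m + 1 : ℕ) : ℤ) x - (1 - bit m x)| ≤ 1 - bit m x - bit (m + 1) x := by
      push_cast
      rcases bit_cases m x with e | e <;> rcases bit_cases (m + 1) x with e' | e' <;>
        rw [e, e'] at h1 ⊢ <;>
        first
        | (norm_num; done)
        | (norm_num at h1; done)
    have h3 : bit ((m + 1 : ℕ) : ℤ) x - alt (bit 0 x) (m + 1) =
        (bit ((m + 1 : ℕ) : ℤ) x - (1 - bit m x)) - (bit m x - alt (bit 0 x) m) := by
      show _ - (1 - alt (bit 0 x) m) = _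
      ring
    rw [h3]
    have h4 := abs_sub (bit ((m + 1 : ℕ) : ℤ) x - (1 - bit m x)) (bit m x - alt (bit 0 x) m)
    linarith

/-- **General `k`.** -/
theorem upper_general {k : ℕ} (h : IsHC k μ) (n : ℕ) (hn : k < 2 * n + 1) :
    (∫ x, bit 0 x ∂μ) ^ 2 + (1 - ∫ x, bit 0 x ∂μ) ^ 2 ≤
      (2 * n + 1) * (1 - 2 * ∫ x, bit 0 x ∂μ) := by
  have := h.prob
  set P := ∫ x, bit 0 x ∂μ with hP
  have b : ∀ n : ℕ, ∫ x, bit n x ∂μ = P := fun n => h.integral_bit n
  set m := 2 * n + 1 with hm
  have hS : ∀ m : ℕ, HasE μ (fun x => ∑ i ∈ Finset.range m, (1 - bit i x - bit (i + 1) x))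
      (m * (1 - 2 * P)) := by
    intro m
    induction m with
    | zero => exact ⟨by simp, by simp⟩
    | succ m ih =>
      have e := ih.add (((HasE.one (μ := μ)).sub (hasE_bit (m : ℤ))).sub (hasE_bit ((m : ℤ) + 1)))
      have b' := b (m + 1)
      push_cast at b'
      rw [b, b'] at e
      have e2 : (m : ℝ) * (1 - 2 * P) + (1 - P - P) = ((m + 1 : ℕ) : ℝ) * (1 - 2 * P) := by
        push_cast; ring
      rw [e2] at e
      simpa only [Finset.sum_range_succ] using e
  have key : ∀ᵐ x ∂μ, 0 ≤ (∑ i ∈ Finset.range m, (1 - bit i x - bit (i + 1) x)) -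
      (1 - bit 0 x - bit m x + bit 0 x * bit m x + bit 0 x * bit m x) := by
    filter_upwards [h.hard] with x hx
    have h1 := alt_dist hx m
    rw [(alt_odd (bit 0 x) n).2] at h1
    have h2 : 1 - bit 0 x - bit m x + bit 0 x * bit m x + bit 0 x * bit m x ≤
        |bit m x - (1 - bit 0 x)| := by
      rcases bit_cases 0 x with e | e <;> rcases bit_cases m x with e' | e' <;>
        simp only [e, e'] <;> norm_num
    linarith
  have e := ((hS m).sub (((((HasE.one (μ := μ)).sub (hasE_bit 0)).sub (hasE_bit m)).add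
    (hasE_bit2 0 m)).add (hasE_bit2 0 m))).nonneg key
  have c : ∫ x, bit 0 x * bit m x ∂μ = P * P := by
    rw [h.integral_bit_mul 0 m (by
      rw [abs_sub_comm, sub_zero, abs_of_nonneg (by positivity)]; exact_mod_cast hn), b]
  rw [c, b] at e
  have hm' : (m : ℝ) = 2 * n + 1 := by rw [hm]; push_cast; ring
  rw [hm'] at e
  nlinarith

end Pool.Agent.H331K
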