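import Mathlib
import Pool.Agent.H331K.Upper

/-!
# The supremum
-/

set_option autoImplicit false

open MeasureTheory ProbabilityTheory

namespace Pool.Agent.H331K

theorem bddAbove_density (k : ℕ) :
    BddAbove {r : ℝ | ∃ μ : Measure (ℤ → Bool), IsHC k μ ∧ r = μ.real {x | x 0 = true}} := by
  refine ⟨1 / 2, ?_⟩
  rintro r ⟨μ, h, rfl⟩
  rw [h.density_eq]
  exact density_le_half h

theorem le_maxDensity {k : ℕ} {μ : Measure (ℤ → Bool)} (h : IsHC k μ) :
    μ.real {x | x 0 = true} ≤ maxDensity k :=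
  le_csSup (bddAbove_density k) ⟨μ, h, rfl⟩

theorem maxDensity_le {k : ℕ} {c : ℝ} (hc : 0 ≤ c)
    (h : ∀ μ : Measure (ℤ → Bool), IsHC k μ → μ.real {x | x 0 = true} ≤ c) :
    maxDensity k ≤ c := by
  apply Real.sSup_le _ hc
  rintro r ⟨μ, hμ, rfl⟩
  exact h μ hμ

end Pool.Agent.H331K
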