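import Mathlib
import Pool.Agent.H331K.Sup

/-!
# A block factor: `p_k ≥ k / (2 (k + 1))` for even `k`
-/

set_option autoImplicit false

open MeasureTheory ProbabilityTheory

namespace Pool.Agent.H331K

section tops

variable {N : ℕ}

/-- The labels `v 0, …, v k` have a unique maximum, and it sits at an odd position. -/
noncomputable def tops (k : ℕ) (v : ℕ → Fin N) : Bool :=
  @decide (∃ j ∈ Finset.range (k + 1), Odd j ∧ ∀ l ∈ Finset.range (k + 1), l ≠ j → v l < v j)
    (Classical.propDecidable _)

theorem tops_true {k : ℕ} {v : ℕ → Fin N} : tops k v = true ↔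
    ∃ j ∈ Finset.range (k + 1), Odd j ∧ ∀ l ∈ Finset.range (k + 1), l ≠ j → v l < v j := by
  unfold tops
  exact @decide_eq_true_iff _ (Classical.propDecidable _)

theorem measurable_tops {Ω : Type*} [MeasurableSpace Ω] {k : ℕ} {v : ℕ → Ω → Fin N}
    (h : ∀ l ≤ k, Measurable (v l)) : Measurable (fun ω => tops k (fun l => v l ω)) := by
  apply measurable_to_bool
  have e : (fun ω => tops k (fun l => v l ω)) ⁻¹' {true} =
      ⋃ j ∈ (Finset.range (k + 1)).filter Odd, ⋂ l ∈ (Finset.range (k + 1)).filter (· ≠ j),
        {ω | v l ω < v j ω} := by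
    ext ω
    simp only [Set.mem_preimage, Set.mem_singleton_iff, tops_true, Set.mem_iUnion, Set.mem_iInter,
      Set.mem_setOf_eq, Finset.mem_filter, exists_prop]
    constructor
    · rintro ⟨j, h1, h2, h3⟩
      exact ⟨j, ⟨h1, h2⟩, fun l hl => h3 l hl.1 hl.2⟩
    · rintro ⟨j, ⟨h1, h2⟩, h3⟩
      exact ⟨j, h1, h2, fun l hl hlj => h3 l ⟨hl, hlj⟩⟩
  rw [e]
  refine Finset.measurableSet_biUnion _ fun j hj => Finset.measurableSet_biInter _ fun l hl => ?_
  have hj' := h j (by have := Finset.mem_range.1 (Finset.mem_filter.1 hj).1; omega)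
  have hl' := h l (by have := Finset.mem_range.1 (Finset.mem_filter.1 hl).1; omega)
  exact (hl'.prodMk hj') (MeasurableSet.of_discrete (s := {p : Fin N × Fin N | p.1 < p.2}))

end tops

section

variable {N : ℕ}

/-- The block factor. -/
noncomputable def blk (k : ℕ) (u : ℤ → Fin N) (i : ℤ) : Bool := tops k (fun l => u (i - l))

theorem measurable_blk (k : ℕ) : Measurable (blk k : (ℤ → Fin N) → ℤ → Bool) := by
  refine measurable_pi_iff.2 fun i => ?_
  exact measurable_tops (v := fun l (u : ℤ → Fin N) => u (i - l)) fun l _ => measurable_pi_apply _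

theorem blk_hard {k : ℕ} (hk : Even k) (u : ℤ → Fin N) (i : ℤ) :
    ¬ (blk k u i = true ∧ blk k u (i + 1) = true) := by
  rintro ⟨h1, h2⟩
  unfold blk at h1 h2
  rw [tops_true] at h1 h2
  obtain ⟨j, hj, hjo, hmax⟩ := h1
  obtain ⟨j', hj', hjo', hmax'⟩ := h2
  rw [Finset.mem_range] at hj hj'
  have e1 : j ≠ k := by rintro rfl; exact (Nat.not_odd_iff_even.2 hk) hjo
  have e2 : 1 ≤ j' := hjo'.pos
  by_cases h : j' = j + 1
  · subst h
    exact (Nat.not_odd_iff_even.2 hjo.add_one) hjo'
  · have a1 := hmax (j' - 1) (Finset.mem_range.2 (by omega)) (by omega)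
    have a2 := hmax' (j + 1) (Finset.mem_range.2 (by omega)) (by omega)
    have c1 : (i - ((j' - 1 : ℕ) : ℤ)) = i + 1 - j' := by
      rw [Nat.cast_sub e2]; push_cast; ring
    have c2 : (i + 1 - ((j + 1 : ℕ) : ℤ)) = i - j := by push_cast; ring
    rw [c1] at a1
    rw [c2] at a2
    exact lt_asymm a1 a2

end

section law

variable (N : ℕ) [NeZero N]

/-- The uniform law on the labels. -/
noncomputable def lab : Measure (Fin N) := (PMF.uniformOfFintype (Fin N)).toMeasure

instance : IsProbabilityMeasure (lab N) := by unfold lab; infer_instance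

/-- Independent uniform labels at the sites of `ℤ`. -/
noncomputable def iid : Measure (ℤ → Fin N) := Measure.infinitePi (fun _ : ℤ => lab N)

instance : IsProbabilityMeasure (iid N) := by unfold iid; infer_instance

/-- The law of the block factor. -/
noncomputable def law (k : ℕ) : Measure (ℤ → Bool) := (iid N).map (blk k)

theorem iid_shift : (iid N).map (fun (u : ℤ → Fin N) (i : ℤ) => u (i + 1)) = iid N := by
  unfold iid
  exact Measure.map_infinitePi_infinitePi_of_inj (P := fun _ : ℤ => lab N)
    (f := fun i : ℤ => i + 1) (add_left_injective 1)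

theorem law_isHC {k : ℕ} (hk : Even k) : IsHC k (law N k) where
  prob := by
    unfold law
    exact Measure.isProbabilityMeasure_map (measurable_blk k).aemeasurable
  hard := by
    unfold law
    rw [ae_map_iff (measurable_blk k).aemeasurable]
    · exact Filter.Eventually.of_forall fun u i => blk_hard hk u i
    · have : {x : ℤ → Bool | ∀ i : ℤ, ¬ (x i = true ∧ x (i + 1) = true)} =
          ⋂ i : ℤ, {x : ℤ → Bool | ¬ (x i = true ∧ x (i + 1) = true)} := by
        ext x; simp
      rw [this]
      refine MeasurableSet.iInter fun i => ?_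
      have hp : Measurable (fun x : ℤ → Bool => (x i, x (i + 1))) :=
        (measurable_pi_apply i).prodMk (measurable_pi_apply (i + 1))
      exact hp (MeasurableSet.of_discrete (s := {p : Bool × Bool | ¬ (p.1 = true ∧ p.2 = true)}))
  stat := by
    unfold law
    have m1 : Measurable (fun (x : ℤ → Bool) (i : ℤ) => x (i + 1)) := by fun_prop
    have m2 : Measurable (fun (x : ℤ → Fin N) (i : ℤ) => x (i + 1)) := by fun_prop
    rw [Measure.map_map m1 (measurable_blk k)]
    have e : (fun (x : ℤ → Bool) (i : ℤ) => x (i + 1)) ∘ (blk k : (ℤ → Fin N) → ℤ → Bool) =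
        blk k ∘ (fun (x : ℤ → Fin N) (i : ℤ) => x (i + 1)) := by
      funext u i
      simp only [Function.comp_apply, blk]
      congr 1
      funext l
      congr 1
      ring
    rw [e, ← Measure.map_map (measurable_blk k) m2, iid_shift]
  dep := by
    intro A B hAB
    unfold law
    rw [IndepFun_iff_Indep]
    have hm : ∀ S : Set ℤ, Measurable (fun (x : ℤ → Bool) (a : S) => x a) := fun S => by fun_prop
    have key : IndepFun (fun (u : ℤ → Fin N) (a : A) => blk k u a)
        (fun (u : ℤ → Fin N) (b : B) => blk k u b) (iid N) := by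
      set m : ℤ → MeasurableSpace (ℤ → Fin N) := fun i =>
        MeasurableSpace.comap (fun u : ℤ → Fin N => u i) inferInstance with hmdef
      have hind : iIndep m (iid N) := by
        have h := iIndepFun_infinitePi (P := fun _ : ℤ => lab N)
          (X := fun (_ : ℤ) (z : Fin N) => z) (fun _ => measurable_id)
        exact h
      have hle : ∀ i, m i ≤ (MeasurableSpace.pi : MeasurableSpace (ℤ → Fin N)) :=
        fun i => (measurable_pi_apply i).comap_le
      let S : Set ℤ → Set ℤ := fun A => {i | ∃ a ∈ A, a - k ≤ i ∧ i ≤ a}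
      have hdis : Disjoint (S A) (S B) := by
        rw [Set.disjoint_left]
        rintro i ⟨a, ha, h1, h2⟩ ⟨b, hb, h3, h4⟩
        have := hAB a ha b hb
        rcases abs_cases (a - b) with ⟨h5, _⟩ | ⟨h5, _⟩ <;> omega
      have hI := indep_iSup_of_disjoint hle hind hdis
      have hcm : ∀ C : Set ℤ, MeasurableSpace.comap (fun (u : ℤ → Fin N) (a : C) => blk k u a)
          inferInstance ≤ ⨆ i ∈ S C, m i := by
        intro C
        rw [← measurable_iff_comap_le]
        refine @measurable_pi_iff _ _ _ (⨆ i ∈ S C, m i) _ _ |>.2 fun a => ?_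
        refine @measurable_tops N _ (⨆ i ∈ S C, m i) k (fun l u => u ((a : ℤ) - l)) fun l hl => ?_
        rw [measurable_iff_comap_le]
        refine le_iSup₂_of_le (f := fun i (_ : i ∈ S C) => m i) ((a : ℤ) - l) ?_ le_rfl
        exact ⟨a, a.2, by omega, by omega⟩
      rw [IndepFun_iff_Indep]
      exact indep_of_indep_of_le_left (indep_of_indep_of_le_right hI (hcm B)) (hcm A)
    rw [← IndepFun_iff_Indep, indepFun_iff_measure_inter_preimage_eq_mul]
    rw [indepFun_iff_measure_inter_preimage_eq_mul] at key
    intro s t hs ht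
    have := key s t hs ht
    rw [Measure.map_apply (measurable_blk k) ((hm A hs).inter (hm B ht)),
      Measure.map_apply (measurable_blk k) (hm A hs), Measure.map_apply (measurable_blk k) (hm B ht)]
    exact this

end law

end Pool.Agent.H331K
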