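import Mathlib
import Pool.Agent.H331K.Block

/-!
# The density of the block factor
-/

set_option autoImplicit false

open MeasureTheory ProbabilityTheory

namespace Pool.Agent.H331K

section

variable (N : ℕ) [NeZero N]

theorem lab_real (s : Set (Fin N)) [Fintype s] : (lab N).real s = (Fintype.card s : ℝ) / N := by
  unfold lab Measure.real
  rw [PMF.toMeasure_uniformOfFintype_apply s (MeasurableSet.of_discrete)]
  rw [ENNReal.toReal_div]
  simp

/-- The embedding `l ↦ -l`. -/
def ng : ℕ ↪ ℤ := ⟨fun l : ℕ => -(l : ℤ), fun a b h => by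
  have h' : -(a : ℤ) = -(b : ℤ) := h
  omega⟩

theorem ng_apply (l : ℕ) : ng l = -(l : ℤ) := rfl

/-- The box: the label at `-j` is `v`, the other labels of the window are smaller. -/
def box (k j : ℕ) (v : Fin N) : Set (ℤ → Fin N) :=
  Set.pi ((Finset.range (k + 1)).map ng : Finset ℤ)
    (fun i => if i = -(j : ℤ) then {v} else Set.Iio v)

theorem mem_box {k j : ℕ} {v : Fin N} {u : ℤ → Fin N} : u ∈ box N k j v ↔
    ∀ l ≤ k, if l = j then u (-(l : ℤ)) = v else u (-(l : ℤ)) < v := by
  unfold box
  simp only [Set.mem_pi, Finset.mem_coe, Finset.mem_map, Finset.mem_range,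
    ng_apply, forall_exists_index, and_imp, forall_apply_eq_imp_iff₂]
  constructor
  · intro h l hl
    have := h l (by omega)
    by_cases e : l = j
    · subst e
      simpa using this
    · have e' : ¬ (-(l : ℤ) = -(j : ℤ)) := by omega
      rw [if_neg e'] at this
      rw [if_neg e]
      exact this
  · intro h l hl
    have := h l (by omega)
    by_cases e : l = j
    · subst e
      simpa using this
    · have e' : ¬ (-(l : ℤ) = -(j : ℤ)) := by omega
      rw [if_neg e]  at this
      rw [if_neg e']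
      exact this

theorem box_real {k j : ℕ} (hj : j ≤ k) (v : Fin N) :
    (iid N).real (box N k j v) = 1 / N * ((v : ℕ) / N : ℝ) ^ k := by
  unfold box iid
  rw [Measure.real, Measure.infinitePi_pi]
  · rw [Finset.prod_map, ENNReal.toReal_prod]
    have hjm : j ∈ Finset.range (k + 1) := Finset.mem_range.2 (by omega)
    rw [← Finset.mul_prod_erase _ _ hjm]
    have h1 : (lab N (if ng j = -(j : ℤ) then {v} else Set.Iio v)).toReal = 1 / N := by
      rw [if_pos (ng_apply j)]
      have := lab_real N ({v} : Set (Fin N))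
      rw [Measure.real] at this
      rw [this]
      simp
    rw [h1]
    congr 1
    rw [Finset.prod_congr rfl (g := fun _ => ((v : ℕ) / N : ℝ))]
    · rw [Finset.prod_const, Finset.card_erase_of_mem hjm, Finset.card_range]
      simp
    · intro l hl
      have hlj : l ≠ j := (Finset.mem_erase.1 hl).1
      have : ¬ (ng l = -(j : ℤ)) := by
        rw [ng_apply]
        omega
      rw [if_neg this]
      have := lab_real N (Set.Iio v : Set (Fin N))
      rw [Measure.real] at this
      rw [this]
      simp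
  · intro i _
    exact MeasurableSet.of_discrete

theorem measurableSet_box (k j : ℕ) (v : Fin N) : MeasurableSet (box N k j v) := by
  unfold box
  exact MeasurableSet.pi (Finset.countable_toSet _) fun i _ => MeasurableSet.of_discrete

theorem sum_pow_ge (k M : ℕ) : (M : ℝ) ^ (k + 1) ≤ (k + 1) * ∑ v ∈ Finset.range (M + 1), (v : ℝ) ^ k := by
  induction M with
  | zero =>
    simp only [Nat.cast_zero, ne_eq, Nat.add_eq_zero_iff, one_ne_zero, and_false, not_false_eq_true,
      zero_pow]
    positivity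
  | succ M ih =>
    rw [Finset.sum_range_succ, mul_add]
    have h : ((M + 1 : ℕ) : ℝ) ^ (k + 1) - (M : ℝ) ^ (k + 1) ≤ (k + 1) * ((M + 1 : ℕ) : ℝ) ^ k := by
      have hg := Commute.mul_geom_sum₂ (Commute.all ((M + 1 : ℕ) : ℝ) (M : ℝ)) (k + 1)
      have e : ((M + 1 : ℕ) : ℝ) - M = 1 := by push_cast; ring
      rw [e, one_mul] at hg
      rw [← hg]
      calc ∑ i ∈ Finset.range (k + 1), ((M + 1 : ℕ) : ℝ) ^ i * (M : ℝ) ^ (k + 1 - 1 - i)
          ≤ ∑ i ∈ Finset.range (k + 1), ((M + 1 : ℕ) : ℝ) ^ k := by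
            apply Finset.sum_le_sum
            intro i hi
            have hi' := Finset.mem_range.1 hi
            have : (M : ℝ) ^ (k + 1 - 1 - i) ≤ ((M + 1 : ℕ) : ℝ) ^ (k + 1 - 1 - i) := by
              apply pow_le_pow_left₀ (by positivity)
              push_cast; linarith
            calc ((M + 1 : ℕ) : ℝ) ^ i * (M : ℝ) ^ (k + 1 - 1 - i)
                ≤ ((M + 1 : ℕ) : ℝ) ^ i * ((M + 1 : ℕ) : ℝ) ^ (k + 1 - 1 - i) :=
                  mul_le_mul_of_nonneg_left this (by positivity)
              _ = ((M + 1 : ℕ) : ℝ) ^ k := by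
                  rw [← pow_add]
                  congr 1
                  omega
        _ = (k + 1) * ((M + 1 : ℕ) : ℝ) ^ k := by
            rw [Finset.sum_const, Finset.card_range]
            push_cast
            rw [nsmul_eq_mul]
            push_cast
            ring
    linarith

theorem law_density (m : ℕ) : (m : ℝ) / (2 * m + 1) * ((((N : ℝ) - 1) / N) ^ (2 * m + 1)) ≤
    (law N (2 * m)).real {x | x 0 = true} := by
  have hN : (0 : ℝ) < N := by exact_mod_cast Nat.pos_of_ne_zero (NeZero.ne N)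
  have hs : MeasurableSet {x : ℤ → Bool | x 0 = true} :=
    measurableSet_eq_fun (measurable_pi_apply 0) measurable_const
  unfold law
  rw [map_measureReal_apply (measurable_blk _) hs]
  set T : Finset (ℕ × Fin N) := Finset.range m ×ˢ Finset.univ with hT
  have hsub : (⋃ p ∈ T, box N (2 * m) (2 * p.1 + 1) p.2) ⊆
      blk (2 * m) ⁻¹' {x : ℤ → Bool | x 0 = true} := by
    intro u hu
    simp only [Set.mem_iUnion] at hu
    obtain ⟨p, hp, hu⟩ := hu
    have hp1 : p.1 < m := Finset.mem_range.1 (Finset.mem_product.1 hp).1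
    rw [mem_box] at hu
    show blk (2 * m) u 0 = true
    unfold blk
    rw [tops_true]
    refine ⟨2 * p.1 + 1, Finset.mem_range.2 (by omega), ⟨p.1, rfl⟩, ?_⟩
    intro l hl hlj
    have h1 := hu l (by have := Finset.mem_range.1 hl; omega)
    have h2 := hu (2 * p.1 + 1) (by omega)
    rw [if_neg hlj] at h1
    rw [if_pos rfl] at h2
    rw [zero_sub, zero_sub, h2]
    exact h1
  have hdis : (T : Set (ℕ × Fin N)).PairwiseDisjoint
      (fun p => box N (2 * m) (2 * p.1 + 1) p.2) := by
    intro p hp q hq hpq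
    have hp1 : p.1 < m := Finset.mem_range.1 (Finset.mem_product.1 hp).1
    have hq1 : q.1 < m := Finset.mem_range.1 (Finset.mem_product.1 hq).1
    rw [Function.onFun, Set.disjoint_left]
    intro u hu hu'
    rw [mem_box] at hu hu'
    have a1 := hu (2 * p.1 + 1) (by omega)
    have a2 := hu (2 * q.1 + 1) (by omega)
    have b1 := hu' (2 * p.1 + 1) (by omega)
    have b2 := hu' (2 * q.1 + 1) (by omega)
    rw [if_pos rfl] at a1 b2
    by_cases e : p.1 = q.1
    · rw [← e] at b2
      apply hpq
      exact Prod.ext e (a1.symm.trans b2)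
    · rw [if_neg (by omega)] at a2 b1
      rw [a1] at b1
      rw [b2] at a2
      exact lt_asymm a2 b1
  have h1 := measureReal_mono (μ := iid N) hsub
  rw [measureReal_biUnion_finset hdis (fun p _ => measurableSet_box N _ _ _)] at h1
  refine le_trans ?_ h1
  have h2 : ∀ p ∈ T, (iid N).real (box N (2 * m) (2 * p.1 + 1) p.2) =
      1 / N * (((p.2 : ℕ) : ℝ) / N) ^ (2 * m) := by
    intro p hp
    have hp1 : p.1 < m := Finset.mem_range.1 (Finset.mem_product.1 hp).1
    exact box_real N (by omega) p.2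
  rw [Finset.sum_congr rfl h2, hT, Finset.sum_product]
  simp only [Finset.sum_const, Finset.card_range, nsmul_eq_mul]
  rw [← Finset.mul_sum]
  have h3 : ∑ v : Fin N, (((v : ℕ) : ℝ) / N) ^ (2 * m) =
      (∑ v ∈ Finset.range N, (v : ℝ) ^ (2 * m)) / (N : ℝ) ^ (2 * m) := by
    rw [Finset.sum_div, ← Fin.sum_univ_eq_sum_range (fun v => (v : ℝ) ^ (2 * m) / (N : ℝ) ^ (2 * m))]
    apply Finset.sum_congr rfl
    intro v _
    rw [div_pow]
  rw [h3]
  obtain ⟨M, hM⟩ : ∃ M, N = M + 1 := ⟨N - 1, by have := NeZero.ne N; omega⟩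
  have h4 := sum_pow_ge (2 * m) M
  rw [← hM] at h4
  have e : (N : ℝ) - 1 = M := by rw [hM]; push_cast; ring
  rw [e, div_pow]
  have h5 : (M : ℝ) ^ (2 * m + 1) / (2 * m + 1) ≤ ∑ v ∈ Finset.range N, (v : ℝ) ^ (2 * m) := by
    rw [div_le_iff₀ (by positivity)]
    push_cast at h4
    linarith
  calc (m : ℝ) / (2 * m + 1) * ((M : ℝ) ^ (2 * m + 1) / (N : ℝ) ^ (2 * m + 1))
      = (m : ℝ) * (1 / N * ((M : ℝ) ^ (2 * m + 1) / (2 * m + 1) / (N : ℝ) ^ (2 * m))) := by
        rw [pow_succ (N : ℝ)]
        field_simp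
    _ ≤ _ := by
        apply mul_le_mul_of_nonneg_left _ (by positivity)
        apply mul_le_mul_of_nonneg_left _ (by positivity)
        exact div_le_div_of_nonneg_right h5 (by positivity)

end

theorem IsHC.succ {k : ℕ} {μ : Measure (ℤ → Bool)} (h : IsHC k μ) : IsHC (k + 1) μ where
  prob := h.prob
  hard := h.hard
  stat := h.stat
  dep := fun A B hAB => h.dep A B fun a ha b hb => by
    have := hAB a ha b hb
    push_cast at this
    linarith

theorem maxDensity_succ (k : ℕ) : maxDensity k ≤ maxDensity (k + 1) := by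
  have h0 : 0 ≤ maxDensity (k + 1) := by
    apply Real.sSup_nonneg
    rintro r ⟨μ, _, rfl⟩
    exact measureReal_nonneg
  exact maxDensity_le h0 fun μ hμ => le_maxDensity hμ.succ

/-- The lower bound for even `k = 2 m`. -/
theorem lower_even (m : ℕ) : (m : ℝ) / (2 * m + 1) ≤ maxDensity (2 * m) := by
  by_contra hlt
  push Not at hlt
  set p := maxDensity (2 * m)
  set c := (m : ℝ) / (2 * m + 1) with hc
  obtain ⟨N, hN⟩ := exists_nat_gt (max 1 (c * (2 * m + 1) / (c - p)))
  have h1 : (1 : ℝ) < N := lt_of_le_of_lt (le_max_left _ _) hN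
  have h2 : c * (2 * m + 1) / (c - p) < N := lt_of_le_of_lt (le_max_right _ _) hN
  have hN0 : N ≠ 0 := by rintro rfl; norm_num at h1
  haveI : NeZero N := ⟨hN0⟩
  have h3 := (law_density N m).trans (le_maxDensity (law_isHC N (even_two_mul m)))
  have h4 : 1 - (2 * m + 1 : ℝ) / N ≤ (((N : ℝ) - 1) / N) ^ (2 * m + 1) := by
    have h := one_add_mul_le_pow (a := -(1 / (N : ℝ))) (by
      have : 1 / (N : ℝ) ≤ 1 := by rw [div_le_one (by linarith)]; linarith
      linarith) (2 * m + 1)
    have e : 1 + -(1 / (N : ℝ)) = ((N : ℝ) - 1) / N := by field_simp; ring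
    rw [e] at h
    refine le_trans (le_of_eq ?_) h
    push_cast
    ring
  have hc0 : 0 ≤ c := by positivity
  have h5 : c * (1 - (2 * m + 1 : ℝ) / N) ≤ p := (mul_le_mul_of_nonneg_left h4 hc0).trans h3
  have h6 : c * (2 * m + 1) < N * (c - p) := by
    rwa [div_lt_iff₀ (by linarith)] at h2
  have h7 : c * (1 - (2 * m + 1 : ℝ) / N) * N ≤ p * N := mul_le_mul_of_nonneg_right h5 (by linarith)
  have h8 : c * (1 - (2 * m + 1 : ℝ) / N) * N = c * N - c * (2 * m + 1) := by
    field_simp
  rw [h8] at h7
  nlinarith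

end Pool.Agent.H331K
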