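import Mathlib

/-!
# The sequence `d_n` behind the renewal process of density `0.355011`
-/

set_option autoImplicit false

namespace Pool.Agent.H331K

/-- `∑ d_n z^n = 1 / (1 - z + u z^2 + v z^3)` with `u = 0.456`, `v = -0.100989`. -/
noncomputable def dd : ℕ → ℝ
  | 0 => 1
  | 1 => 1
  | 2 => 0.544
  | n + 3 => dd (n + 2) - 0.456 * dd (n + 1) + 0.100989 * dd n

/-- The gap law. -/
noncomputable def ff (n : ℕ) : ℝ := dd n - dd (n + 1)

theorem dd_rec (n : ℕ) : dd (n + 3) = dd (n + 2) - 0.456 * dd (n + 1) + 0.100989 * dd n := rfl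

theorem ff_rec (n : ℕ) : ff (n + 3) = ff (n + 2) - 0.456 * ff (n + 1) + 0.100989 * ff n := by
  have h1 := dd_rec n
  have h2 := dd_rec (n + 1)
  unfold ff
  rw [show n + 1 + 2 = n + 3 by ring, show n + 1 + 1 = n + 2 by ring] at h2
  rw [show n + 3 + 1 = n + 1 + 3 by ring, h2, h1, show n + 1 + 1 = n + 2 by ring]
  ring

theorem ff0 : ff 0 = 0 := by unfold ff dd; norm_num
theorem ff1 : ff 1 = 0.456 := by unfold ff dd; norm_num
theorem ff2 : ff 2 = 0.355011 := by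
  have := dd_rec 0
  unfold ff
  rw [show (2 + 1) = 0 + 3 by norm_num, this]
  norm_num [dd]
theorem ff3 : ff 3 = 0.147075 := by
  rw [show 3 = 0 + 3 by norm_num, ff_rec 0]
  norm_num [ff0, ff1, ff2]
theorem ff4 : ff 4 = 0.031240968 := by
  rw [show 4 = 1 + 3 by norm_num, ff_rec 1]
  norm_num [ff1, ff2, ff3]
theorem ff5 : ff 5 = 0.000026973879 := by
  rw [show 5 = 2 + 3 by norm_num, ff_rec 2]
  norm_num [ff2, ff3, ff4]
theorem ff6 : ff 6 = 0.000634049646 := by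
  rw [show 6 = 3 + 3 by norm_num, ff_rec 3]
  norm_num [ff3, ff4, ff5]
theorem ff7 : ff 7 = 0.003776743674528 := by
  rw [show 7 = 4 + 3 by norm_num, ff_rec 4]
  norm_num [ff4, ff5, ff6]
theorem ff8 : ff 8 = 0.003490341101018331 := by
  rw [show 8 = 5 + 3 by norm_num, ff_rec 5]
  norm_num [ff5, ff6, ff7]
theorem ff9 : ff 9 = 0.001832178025133457 := by
  rw [show 9 = 6 + 3 by norm_num, ff_rec 6]
  norm_num [ff6, ff7, ff8]

/-- The invariant. -/
def Inv (n : ℕ) : Prop :=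
  0 < ff (n + 2) - 0.51 * ff (n + 1) + 0.2061 * ff n ∧
  1.4 * ((ff (n + 2) - 0.49 * ff (n + 1)) ^ 2 -
      0.51 * (ff (n + 2) - 0.49 * ff (n + 1)) * (ff (n + 1) - 0.49 * ff n) +
      0.2061 * (ff (n + 1) - 0.49 * ff n) ^ 2) ≤
    (ff (n + 2) - 0.51 * ff (n + 1) + 0.2061 * ff n) ^ 2

theorem Inv.succ {n : ℕ} (h : Inv n) : Inv (n + 1) := by
  unfold Inv at h ⊢
  have e := ff_rec n
  rw [show n + 1 + 2 = n + 3 by ring, show n + 1 + 1 = n + 2 by ring]
  set x := ff n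
  set y := ff (n + 1)
  set z := ff (n + 2)
  have eH : ff (n + 3) - 0.51 * z + 0.2061 * y = 0.49 * (z - 0.51 * y + 0.2061 * x) := by
    rw [e]; ring
  have eQ : (ff (n + 3) - 0.49 * z) ^ 2 - 0.51 * (ff (n + 3) - 0.49 * z) * (z - 0.49 * y) +
      0.2061 * (z - 0.49 * y) ^ 2 =
      0.2061 * ((z - 0.49 * y) ^ 2 - 0.51 * (z - 0.49 * y) * (y - 0.49 * x) +
        0.2061 * (y - 0.49 * x) ^ 2) := by
    rw [e]; ring
  rw [eH, eQ]
  obtain ⟨h1, h2⟩ := h
  refine ⟨by positivity, ?_⟩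
  set Q := (z - 0.49 * y) ^ 2 - 0.51 * (z - 0.49 * y) * (y - 0.49 * x) +
        0.2061 * (y - 0.49 * x) ^ 2
  set H := z - 0.51 * y + 0.2061 * x
  nlinarith [sq_nonneg H]

theorem Inv.nonneg {n : ℕ} (h : Inv n) : 0 ≤ ff n := by
  unfold Inv at h
  obtain ⟨h1, h2⟩ := h
  set x := ff n
  set y := ff (n + 1)
  set z := ff (n + 2)
  have h3 : ((z - 0.49 * y) - 0.02 * (y - 0.49 * x)) ^ 2 ≤ (z - 0.51 * y + 0.2061 * x) ^ 2 := by
    refine le_trans ?_ h2
    nlinarith [sq_nonneg ((z - 0.49 * y) - 0.8425 * (y - 0.49 * x)), sq_nonneg (y - 0.49 * x)]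
  have h4 : (z - 0.49 * y) - 0.02 * (y - 0.49 * x) ≤ z - 0.51 * y + 0.2061 * x :=
    abs_le_of_sq_le_sq' h3 h1.le |>.2
  linarith

theorem inv_seven : Inv 7 := by
  unfold Inv
  rw [show 7 + 2 = 9 by norm_num, show 7 + 1 = 8 by norm_num, ff7, ff8, ff9]
  norm_num

theorem inv_ge (n : ℕ) : Inv (n + 7) := by
  induction n with
  | zero => exact inv_seven
  | succ n ih =>
    have := ih.succ
    rwa [show n + 7 + 1 = n + 1 + 7 by ring] at this

theorem ff_nonneg (n : ℕ) : 0 ≤ ff n := by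
  by_cases h : 7 ≤ n
  · obtain ⟨m, rfl⟩ := Nat.exists_eq_add_of_le' h
    exact (inv_ge m).nonneg
  · interval_cases n
    · rw [ff0]
    · rw [ff1]; norm_num
    · rw [ff2]; norm_num
    · rw [ff3]; norm_num
    · rw [ff4]; norm_num
    · rw [ff5]; norm_num
    · rw [ff6]; norm_num

theorem dd_nonneg (n : ℕ) : 0 ≤ dd n := by
  have h1 := ff_nonneg n
  have h2 := ff_nonneg (n + 2)
  have h3 := dd_rec n
  unfold ff at h1 h2
  rw [show n + 2 + 1 = n + 3 by ring, h3] at h2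
  nlinarith

end Pool.Agent.H331K
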