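import Mathlib
import Pool.Agent.H331K.Meas
import Pool.Agent.H331K.Seq

/-!
# The word law of the renewal process and its intensities
-/

set_option autoImplicit false

namespace Pool.Agent.H331K

/-- Weight of a word read by a renewal process of age `j`. -/
noncomputable def AA : ℕ → List Bool → ℝ
  | j, [] => dd j
  | j, false :: w => AA (j + 1) w
  | j, true :: w => ff j * AA 0 w

/-- The stationary word law. -/
noncomputable def PP (w : List Bool) : ℝ := AA 2 w + 0.456 * AA 0 w

theorem AA_nonneg (w : List Bool) (j : ℕ) : 0 ≤ AA j w := by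
  induction w generalizing j with
  | nil => exact dd_nonneg j
  | cons a w ih =>
    cases a
    · exact ih (j + 1)
    · exact mul_nonneg (ff_nonneg j) (ih 0)

theorem AA_rec (w : List Bool) (j : ℕ) :
    AA (j + 3) w = AA (j + 2) w - 0.456 * AA (j + 1) w + 0.100989 * AA j w := by
  induction w generalizing j with
  | nil => exact dd_rec j
  | cons a w ih =>
    cases a
    · show AA (j + 3 + 1) w = AA (j + 2 + 1) w - 0.456 * AA (j + 1 + 1) w + 0.100989 * AA (j + 1) w
      exact ih (j + 1)
    · show ff (j + 3) * AA 0 w = ff (j + 2) * AA 0 w - 0.456 * (ff (j + 1) * AA 0 w) +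
        0.100989 * (ff j * AA 0 w)
      rw [ff_rec]; ring

theorem AA_right (w : List Bool) (j : ℕ) : AA j (w ++ [true]) + AA j (w ++ [false]) = AA j w := by
  induction w generalizing j with
  | nil =>
    show ff j * dd 0 + dd (j + 1) = dd j
    have : dd 0 = 1 := rfl
    rw [this]
    unfold ff; ring
  | cons a w ih =>
    cases a
    · exact ih (j + 1)
    · show ff j * AA 0 (w ++ [true]) + ff j * AA 0 (w ++ [false]) = ff j * AA 0 w
      rw [← ih 0]; ring

theorem wlaw_PP : WLaw PP where
  nonneg w := by
    unfold PP
    have h1 := AA_nonneg w 2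
    have h2 := AA_nonneg w 0
    positivity
  nil := by
    show dd 2 + 0.456 * dd 0 = 1
    norm_num [dd]
  left y := by
    rw [Fintype.sum_bool]
    show (ff 2 * AA 0 y + 0.456 * (ff 0 * AA 0 y)) + (AA 3 y + 0.456 * AA 1 y) =
      AA 2 y + 0.456 * AA 0 y
    have h := AA_rec y 0
    rw [zero_add, zero_add, zero_add] at h
    rw [h, ff2, ff0]
    ring
  right x := by
    rw [Fintype.sum_bool]
    unfold PP
    rw [← AA_right x 2, ← AA_right x 0]
    ring

/-- Sum of `F` over all words satisfying the constraints `c` (`true` = the letter is `1`,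
`false` = no constraint). -/
noncomputable def TT : (List Bool → ℝ) → List Bool → ℝ
  | F, [] => F []
  | F, true :: c => TT (fun w => F (true :: w)) c
  | F, false :: c => TT (fun w => F (true :: w)) c + TT (fun w => F (false :: w)) c

theorem TT_add (c : List Bool) (F G : List Bool → ℝ) :
    TT (fun w => F w + G w) c = TT F c + TT G c := by
  induction c generalizing F G with
  | nil => rfl
  | cons a c ih =>
    cases a
    · simp only [TT, ih]; ring
    · simp only [TT, ih]

theorem TT_mul (c : List Bool) (r : ℝ) (F : List Bool → ℝ) :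
    TT (fun w => r * F w) c = r * TT F c := by
  induction c generalizing F with
  | nil => rfl
  | cons a c ih =>
    cases a
    · simp only [TT, ih]; ring
    · simp only [TT, ih]

/-- Constrained age weights. -/
noncomputable def tt (j : ℕ) (c : List Bool) : ℝ := TT (AA j) c

theorem tt_true (j : ℕ) (c : List Bool) : tt j (true :: c) = ff j * tt 0 c := by
  show TT (fun w => ff j * AA 0 w) c = _
  rw [TT_mul]; rfl

theorem tt_false (j : ℕ) (c : List Bool) : tt j (false :: c) = ff j * tt 0 c + tt (j + 1) c := by
  show TT (fun w => ff j * AA 0 w) c + TT (fun w => AA (j + 1) w) c = _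
  rw [TT_mul]; rfl

theorem tt_rec (j : ℕ) (c : List Bool) :
    tt (j + 3) c = tt (j + 2) c - 0.456 * tt (j + 1) c + 0.100989 * tt j c := by
  unfold tt
  have : AA (j + 3) = fun w => (AA (j + 2) w + (-0.456) * AA (j + 1) w) + 0.100989 * AA j w := by
    funext w
    rw [AA_rec]; ring
  rw [this, TT_add, TT_add, TT_mul, TT_mul]
  ring

theorem TP_eq (c : List Bool) : TT PP c = tt 2 c + 0.456 * tt 0 c := by
  have : PP = fun w => AA 2 w + 0.456 * AA 0 w := rfl
  rw [this, TT_add, TT_mul]; rfl

theorem TP_true (c : List Bool) : TT PP (true :: c) = 0.355011 * tt 0 c := by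
  rw [TP_eq, tt_true, tt_true, ff2, ff0]; ring

theorem TP_false (c : List Bool) : TT PP (false :: c) = TT PP c := by
  rw [TP_eq, TP_eq, tt_false, tt_false, ff2, ff0]
  have h := tt_rec 0 c
  rw [zero_add, zero_add, zero_add] at h
  rw [h, zero_add]
  ring

theorem TP_tt (c : List Bool) : TT PP (true :: true :: c) = 0 := by
  rw [TP_true, tt_true, ff0]; ring

theorem TP_tft (c : List Bool) :
    TT PP (true :: false :: true :: c) = 0.456 * TT PP (false :: true :: c) := by
  rw [TP_true, tt_false 0, ff0, TP_false, TP_true, zero_add, tt_true 1, ff1]; ring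

theorem TP_tff (c : List Bool) :
    TT PP (true :: false :: false :: c) = 0.355011 * TT PP (false :: false :: c) := by
  rw [TP_true, tt_false 0, ff0, TP_false, TP_false, TP_eq, zero_add, tt_false 1, ff1]; ring

end Pool.Agent.H331K
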