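import Mathlib
import Pool.Agent.H331K.Word
import Pool.Agent.H331K.Defs

/-!
# A stationary `2`-dependent hard-core process of density `0.355011`
-/

set_option autoImplicit false

open MeasureTheory ProbabilityTheory
open scoped ENNReal

namespace Pool.Agent.H331K

/-- The event that the constraints `c`, placed at `a`, hold. -/
def EE : ℤ → List Bool → Set (ℤ → Bool)
  | _, [] => Set.univ
  | a, true :: c => {x | x a = true} ∩ EE (a + 1) c
  | a, false :: c => EE (a + 1) c

theorem measurableSet_eval (a : ℤ) (b : Bool) : MeasurableSet {x : ℤ → Bool | x a = b} :=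
  measurableSet_eq_fun (measurable_pi_apply a) measurable_const

theorem measurableSet_EE (c : List Bool) (a : ℤ) : MeasurableSet (EE a c) := by
  induction c generalizing a with
  | nil => exact MeasurableSet.univ
  | cons b c ih =>
    cases b
    · exact ih (a + 1)
    · exact (measurableSet_eval a true).inter (ih (a + 1))

theorem mem_EE (c : List Bool) (a : ℤ) (x : ℤ → Bool) :
    x ∈ EE a c ↔ ∀ i : ℕ, i < c.length → c.getD i false = true → x (a + i) = true := by
  induction c generalizing a with
  | nil => simp [EE]
  | cons b c ih =>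
    have e : ∀ i : ℕ, a + 1 + (i : ℤ) = a + ((i + 1 : ℕ) : ℤ) := by intro i; push_cast; ring
    cases b
    · show x ∈ EE (a + 1) c ↔ _
      rw [ih]
      constructor
      · intro h i hi hc
        cases i with
        | zero => simp at hc
        | succ i =>
          have := h i (by simpa using hi) (by simpa using hc)
          rwa [e] at this
      · intro h i hi hc
        rw [e]
        exact h (i + 1) (by simpa using hi) (by simpa using hc)
    · show (x a = true ∧ x ∈ EE (a + 1) c) ↔ _
      rw [ih]
      constructor
      · rintro ⟨h0, h⟩ i hi hc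
        cases i with
        | zero => simpa using h0
        | succ i =>
          have := h i (by simpa using hi) (by simpa using hc)
          rwa [e] at this
      · intro h
        refine ⟨by simpa using h 0 (by simp) (by simp), fun i hi hc => ?_⟩
        rw [e]
        exact h (i + 1) (by simpa using hi) (by simpa using hc)

theorem win_snoc (x : ℤ → Bool) (a : ℤ) (w : List Bool) (b : Bool) :
    win x a (w ++ [b]).length = w ++ [b] ↔ win x a w.length = w ∧ x (a + w.length) = b := by
  rw [List.length_append, List.length_singleton, win_append, win_one]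
  constructor
  · intro h
    have h1 := List.append_inj h (win_length x a w.length)
    exact ⟨h1.1, by simpa using h1.2⟩
  · rintro ⟨h1, h2⟩
    rw [h1, h2]

variable {κ : Measure (ℤ → Bool)}

theorem real_prefix [IsProbabilityMeasure κ]
    (h : ∀ (a : ℤ) (w : List Bool), κ {x | win x a w.length = w} = q PP w)
    (c : List Bool) (a : ℤ) (w : List Bool) :
    κ.real ({x | win x a w.length = w} ∩ EE (a + w.length) c) = TT (fun v => PP (w ++ v)) c := by
  induction c generalizing w with
  | nil =>
    show κ.real ({x | win x a w.length = w} ∩ Set.univ) = PP (w ++ [])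
    rw [Set.inter_univ, List.append_nil, measureReal_def, h]
    unfold q
    rw [ENNReal.toReal_ofReal (wlaw_PP.nonneg w)]
  | cons b c ih =>
    have key : ∀ b : Bool, κ.real ({x | win x a w.length = w} ∩
        ({x | x (a + w.length) = b} ∩ EE (a + w.length + 1) c)) =
        TT (fun v => PP (w ++ b :: v)) c := by
      intro b
      have h1 := ih (w ++ [b])
      have e1 : (fun v => PP (w ++ [b] ++ v)) = fun v => PP (w ++ b :: v) := by
        funext v; simp
      rw [e1] at h1
      rw [← h1]
      congr 1
      rw [← Set.inter_assoc]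
      congr 1
      · ext x
        exact (win_snoc x a w b).symm
      · rw [List.length_append, List.length_singleton]
        push_cast
        rw [add_assoc]
    cases b
    · show κ.real ({x | win x a w.length = w} ∩ EE (a + w.length + 1) c) =
        TT (fun v => PP (w ++ true :: v)) c + TT (fun v => PP (w ++ false :: v)) c
      rw [← key true, ← key false, ← measureReal_union]
      · congr 1
        ext x
        simp only [Set.mem_inter_iff, Set.mem_union, Set.mem_setOf_eq]
        cases x (a + w.length) <;> simp
      · rw [Set.disjoint_left]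
        rintro x ⟨_, h1, _⟩ ⟨_, h2, _⟩
        simp only [Set.mem_setOf_eq] at h1 h2
        rw [h1] at h2
        exact absurd h2 (by decide)
      · exact (measurableSet_win _ _ _).inter ((measurableSet_eval _ _).inter
          (measurableSet_EE _ _))
    · exact key true

theorem real_EE [IsProbabilityMeasure κ]
    (h : ∀ (a : ℤ) (w : List Bool), κ {x | win x a w.length = w} = q PP w)
    (c : List Bool) (a : ℤ) : κ.real (EE a c) = TT PP c := by
  have h1 := real_prefix h c a []
  simpa [win] using h1

/-- Joint occupation. -/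
def JJ (S : Finset ℤ) : Set (ℤ → Bool) := {x | ∀ i ∈ S, x i = true}

/-- The constraint list of a finite set on a window. -/
def cl (S : Finset ℤ) (a : ℤ) (n : ℕ) : List Bool :=
  (List.range n).map (fun i : ℕ => decide (a + i ∈ S))

theorem cl_succ (S : Finset ℤ) (a : ℤ) (n : ℕ) :
    cl S a (n + 1) = decide (a ∈ S) :: cl S (a + 1) n := by
  unfold cl
  rw [List.range_succ_eq_map, List.map_cons, List.map_map]
  congr 1
  · simp
  · apply List.map_congr_left
    intro i _
    simp only [Function.comp_apply]
    congr 2
    push_cast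
    ring

theorem JJ_eq (S : Finset ℤ) (a : ℤ) (n : ℕ) (h : ∀ i ∈ S, a ≤ i ∧ i < a + n) :
    JJ S = EE a (cl S a n) := by
  ext x
  rw [mem_EE]
  have hl : (cl S a n).length = n := by simp [cl]
  rw [hl]
  have hg : ∀ i : ℕ, i < n → ((cl S a n).getD i false = true ↔ a + i ∈ S) := by
    intro i hi
    rw [List.getD_eq_getElem _ _ (by rw [hl]; exact hi)]
    simp [cl]
  constructor
  · intro hx i hi hc
    exact hx _ ((hg i hi).1 hc)
  · intro hx i hi
    obtain ⟨h1, h2⟩ := h i hi
    have h3 := hx (i - a).toNat (by omega) ((hg _ (by omega)).2 (by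
      rw [show a + ((i - a).toNat : ℤ) = i by omega]; exact hi))
    rwa [show a + ((i - a).toNat : ℤ) = i by omega] at h3

/-- Adding a point below. -/
theorem real_insert [IsProbabilityMeasure κ]
    (h : ∀ (a : ℤ) (w : List Bool), κ {x | win x a w.length = w} = q PP w)
    (U : Finset ℤ) (m : ℤ) (hU : ∀ i ∈ U, m < i) :
    κ.real (JJ (insert m U)) =
      (if m + 1 ∈ U then 0 else if m + 2 ∈ U then 0.456 else 0.355011) * κ.real (JJ U) := by
  obtain ⟨n, hn⟩ : ∃ n : ℕ, ∀ i ∈ U, i < m + 1 + ((n + 2 : ℕ) : ℤ) := by
    refine ⟨(U.sup (fun i => (i - m).toNat)), fun i hi => ?_⟩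
    have := Finset.le_sup (f := fun i => (i - m).toNat) hi
    push_cast
    omega
  have e1 : JJ U = EE (m + 1) (cl U (m + 1) (n + 2)) :=
    JJ_eq U (m + 1) (n + 2) (fun i hi => ⟨hU i hi, hn i hi⟩)
  have e2 : JJ (insert m U) = EE m (true :: cl U (m + 1) (n + 2)) := by
    show _ = {x | x m = true} ∩ EE (m + 1) (cl U (m + 1) (n + 2))
    rw [← e1]
    ext x
    simp [JJ]
  rw [e1, e2, real_EE h, real_EE h, cl_succ, cl_succ]
  rw [show m + 1 + 1 = m + 2 by ring]
  by_cases h1 : m + 1 ∈ U
  · rw [if_pos h1]
    simp only [h1, decide_true]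
    rw [TP_tt]; ring
  · rw [if_neg h1]
    by_cases h2 : m + 2 ∈ U
    · rw [if_pos h2]
      simp only [h1, h2, decide_true, decide_false]
      exact TP_tft _
    · rw [if_neg h2]
      simp only [h1, h2, decide_false]
      exact TP_tff _

theorem JJ_empty : JJ ∅ = Set.univ := by ext x; simp [JJ]

/-- Separation. -/
def Sep (S T : Finset ℤ) : Prop := ∀ a ∈ S, ∀ b ∈ T, 2 < |a - b|

theorem real_union [IsProbabilityMeasure κ]
    (h : ∀ (a : ℤ) (w : List Bool), κ {x | win x a w.length = w} = q PP w) (n : ℕ) :
    ∀ S T : Finset ℤ, S.card + T.card = n → Sep S T →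
      κ.real (JJ (S ∪ T)) = κ.real (JJ S) * κ.real (JJ T) := by
  induction n with
  | zero =>
    intro S T hc _
    have h1 : S = ∅ := Finset.card_eq_zero.1 (by omega)
    have h2 : T = ∅ := Finset.card_eq_zero.1 (by omega)
    subst h1 h2
    rw [Finset.empty_union, JJ_empty]
    simp
  | succ n ih =>
    -- the smallest element may be assumed to be in `S`
    have main : ∀ S T : Finset ℤ, S.card + T.card = n + 1 → Sep S T → ∀ m ∈ S,
        (∀ i ∈ S, m ≤ i) → (∀ i ∈ T, m ≤ i) →
        κ.real (JJ (S ∪ T)) = κ.real (JJ S) * κ.real (JJ T) := by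
      intro S T hc hs m hm h1 h2
      have hmT : ∀ b ∈ T, m + 2 < b := by
        intro b hb
        have := hs m hm b hb
        have := h2 b hb
        have : |m - b| = b - m := by rw [abs_sub_comm]; exact abs_of_nonneg (by omega)
        omega
      set S' := S.erase m with hS'
      have eS : insert m S' = S := Finset.insert_erase hm
      have hS'lt : ∀ i ∈ S', m < i := by
        intro i hi
        rw [hS', Finset.mem_erase] at hi
        have := h1 i hi.2
        omega
      have hU : ∀ i ∈ S' ∪ T, m < i := by
        intro i hi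
        rcases Finset.mem_union.1 hi with hi | hi
        · exact hS'lt i hi
        · have := hmT i hi; omega
      have hcard : S'.card + T.card = n := by
        have h3 : S'.card = S.card - 1 := Finset.card_erase_of_mem hm
        have h0 : 0 < S.card := Finset.card_pos.2 ⟨m, hm⟩
        omega
      have e1 := real_insert h (S' ∪ T) m hU
      have e2 := real_insert h S' m hS'lt
      have e3 := ih S' T hcard (fun a ha b hb => hs a (Finset.mem_of_mem_erase ha) b hb)
      have n1 : m + 1 ∉ T := fun hh => by have := hmT _ hh; omega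
      have n2 : m + 2 ∉ T := fun hh => by have := hmT _ hh; omega
      have e4 : insert m (S' ∪ T) = S ∪ T := by rw [← Finset.insert_union, eS]
      rw [e4] at e1
      rw [eS] at e2
      simp only [Finset.mem_union, n1, n2, or_false] at e1
      rw [e1, e2, e3]
      ring
    intro S T hc hs
    have hne : (S ∪ T).Nonempty := by
      rw [← Finset.card_pos]
      by_contra h0
      have h1 : S ∪ T = ∅ := Finset.card_eq_zero.1 (by omega)
      rw [Finset.union_eq_empty] at h1
      rw [h1.1, h1.2] at hc
      simp at hc
    have hmin := Finset.min'_mem _ hne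
    have hle : ∀ i ∈ S ∪ T, (S ∪ T).min' hne ≤ i := fun i hi => Finset.min'_le _ _ hi
    rcases Finset.mem_union.1 hmin with hm | hm
    · exact main S T hc hs _ hm (fun i hi => hle i (Finset.mem_union_left _ hi))
        (fun i hi => hle i (Finset.mem_union_right _ hi))
    · rw [Finset.union_comm, mul_comm]
      have := main T S (by omega) (fun a ha b hb => by
        rw [abs_sub_comm]; exact hs b hb a ha) _ hm
        (fun i hi => hle i (Finset.mem_union_right _ hi))
        (fun i hi => hle i (Finset.mem_union_left _ hi))
      exact this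

/-- The generating `π`-system. -/
def piS (A : Set ℤ) : Set (Set (ℤ → Bool)) := {s | ∃ S : Finset ℤ, (S : Set ℤ) ⊆ A ∧ s = JJ S}

theorem isPiSystem_piS (A : Set ℤ) : IsPiSystem (piS A) := by
  rintro _ ⟨S, hS, rfl⟩ _ ⟨T, hT, rfl⟩ _
  refine ⟨S ∪ T, by simp [hS, hT], ?_⟩
  ext x
  simp only [JJ, Set.mem_inter_iff, Set.mem_setOf_eq, Finset.mem_union]
  constructor
  · rintro ⟨h1, h2⟩ i (hi | hi)
    · exact h1 i hi
    · exact h2 i hi
  · intro h
    exact ⟨fun i hi => h i (Or.inl hi), fun i hi => h i (Or.inr hi)⟩

open Classical in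
theorem gen_piS (A : Set ℤ) :
    MeasurableSpace.comap (fun (x : ℤ → Bool) (a : A) => x a) MeasurableSpace.pi =
      MeasurableSpace.generateFrom (piS A) := by
  apply le_antisymm
  · rw [MeasurableSpace.pi, MeasurableSpace.comap_iSup]
    apply iSup_le
    intro a
    rw [MeasurableSpace.comap_comp]
    rintro s ⟨t, _, rfl⟩
    have h1 : MeasurableSet[MeasurableSpace.generateFrom (piS A)] {x : ℤ → Bool | x a = true} := by
      apply MeasurableSpace.measurableSet_generateFrom
      refine ⟨{(a : ℤ)}, by simp, ?_⟩
      ext x; simp [JJ]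
    have h2 : ((fun g : A → Bool => g a) ∘ fun (x : ℤ → Bool) (a : A) => x a) ⁻¹' t =
        (if true ∈ t then {x : ℤ → Bool | x a = true} else ∅) ∪
        (if false ∈ t then {x : ℤ → Bool | x a = true}ᶜ else ∅) := by
      ext x
      simp only [Set.mem_preimage, Function.comp_apply]
      cases hx : x a <;> by_cases ht : true ∈ t <;> by_cases hf : false ∈ t <;> simp [ht, hf, hx]
    rw [h2]
    refine @MeasurableSet.union _ (MeasurableSpace.generateFrom (piS A)) _ _ ?_ ?_
    · split_ifs
      · exact h1
      · exact @MeasurableSet.empty _ (MeasurableSpace.generateFrom (piS A))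
    · split_ifs
      · exact @MeasurableSet.compl _ _ (MeasurableSpace.generateFrom (piS A)) h1
      · exact @MeasurableSet.empty _ (MeasurableSpace.generateFrom (piS A))
  · apply MeasurableSpace.generateFrom_le
    rintro _ ⟨S, hS, rfl⟩
    have e : JJ S = ⋂ i ∈ S, {x : ℤ → Bool | x i = true} := by
      ext x; simp [JJ]
    rw [e]
    apply Finset.measurableSet_biInter
    intro i hi
    refine ⟨{z : A → Bool | z ⟨i, hS hi⟩ = true}, ?_, rfl⟩
    exact measurableSet_eq_fun (measurable_pi_apply _) measurable_const

theorem exists_renewal : ∃ κ : Measure (ℤ → Bool), IsHC 2 κ ∧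
    κ.real {x | x 0 = true} = 0.355011 := by
  obtain ⟨κ, hκ, hw⟩ := exists_kappa wlaw_PP
  refine ⟨κ, ⟨hκ, ?_, stat_of_win hw, ?_⟩, ?_⟩
  · rw [ae_all_iff]
    intro i
    rw [ae_iff]
    have e : {x : ℤ → Bool | ¬ ¬ (x i = true ∧ x (i + 1) = true)} = EE i [true, true] := by
      ext x; simp [EE]
    rw [e]
    have h1 := real_EE hw [true, true] i
    rw [TP_tt] at h1
    rwa [measureReal_eq_zero_iff] at h1
  · intro A B hAB
    rw [IndepFun_iff_Indep]
    rw [gen_piS, gen_piS]
    have hle : ∀ A : Set ℤ, MeasurableSpace.generateFrom (piS A) ≤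
        (inferInstance : MeasurableSpace (ℤ → Bool)) := by
      intro A
      rw [← gen_piS]
      exact Measurable.comap_le (by fun_prop)
    refine IndepSets.indep (hle A) (hle B) (isPiSystem_piS A) (isPiSystem_piS B) rfl rfl ?_
    rw [IndepSets_iff]
    rintro _ _ ⟨S, hS, rfl⟩ ⟨T, hT, rfl⟩
    have h1 := real_union hw _ S T rfl (fun a ha b hb => by
      have := hAB a (hS ha) b (hT hb)
      exact_mod_cast this)
    have e : JJ S ∩ JJ T = JJ (S ∪ T) := by
      ext x
      simp only [JJ, Set.mem_inter_iff, Set.mem_setOf_eq, Finset.mem_union]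
      constructor
      · rintro ⟨h1, h2⟩ i (hi | hi)
        · exact h1 i hi
        · exact h2 i hi
      · intro h
        exact ⟨fun i hi => h i (Or.inl hi), fun i hi => h i (Or.inr hi)⟩
    rw [e]
    rw [measureReal_def, measureReal_def, measureReal_def, ← ENNReal.toReal_mul] at h1
    exact (ENNReal.toReal_eq_toReal_iff' (measure_ne_top _ _)
      (ENNReal.mul_ne_top (measure_ne_top _ _) (measure_ne_top _ _))).1 h1
  · have e : {x : ℤ → Bool | x 0 = true} = EE 0 [true] := by ext x; simp [EE]
    rw [e, real_EE hw, TP_true]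
    show 0.355011 * dd 0 = 0.355011
    norm_num [dd]

end Pool.Agent.H331K
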